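import Pool.Agent.helper67.DL.SpecG

/-! # Project dl, module UP: endomorphisms of harmonic bundles on compact surfaces have constant norm -/

namespace Pool.Agent.DL

open Matrix Complex Filter Topology
open scoped ComplexOrder Manifold ContDiff

noncomputable section

/-- Invariance of the norm under a change of frames. -/
theorem UP_trace {n : ℕ} (g k H₁ H₂ P₁ P₂ : Matrix (Fin n) (Fin n) ℂ) (hgk : g * k = 1)
    (hH : H₂ = gᴴ * H₁ * g) (hP : g * P₂ = P₁ * g) (hd : IsUnit H₁.det) :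
    nn H₂ P₂ = nn H₁ P₁ := by
  have hkg : k * g = 1 := mul_eq_one_comm.mp hgk
  have hkg' : kᴴ * gᴴ = 1 := by rw [← conjTranspose_mul, hgk, conjTranspose_one]
  have hinv : H₂⁻¹ = k * H₁⁻¹ * kᴴ := by
    apply Matrix.inv_eq_left_inv
    rw [hH]
    calc k * H₁⁻¹ * kᴴ * (gᴴ * H₁ * g) = k * (H₁⁻¹ * ((kᴴ * gᴴ) * H₁)) * g := by
          simp only [Matrix.mul_assoc]
      _ = 1 := by
          rw [hkg', Matrix.one_mul, Matrix.nonsing_inv_mul _ hd, Matrix.mul_one, hkg]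
  have hP2 : P₂ᴴ * gᴴ = gᴴ * P₁ᴴ := by
    rw [← conjTranspose_mul, hP, conjTranspose_mul]
  have hmain : H₂⁻¹ * P₂ᴴ * H₂ * P₂ = k * (H₁⁻¹ * P₁ᴴ * H₁ * P₁ * g) := by
    rw [hinv, hH]
    calc k * H₁⁻¹ * kᴴ * P₂ᴴ * (gᴴ * H₁ * g) * P₂
        = k * H₁⁻¹ * kᴴ * (P₂ᴴ * gᴴ) * H₁ * (g * P₂) := by simp only [Matrix.mul_assoc]
      _ = k * H₁⁻¹ * (kᴴ * gᴴ) * P₁ᴴ * H₁ * (P₁ * g) := by
          rw [hP2, hP]; simp only [Matrix.mul_assoc]
      _ = k * (H₁⁻¹ * P₁ᴴ * H₁ * P₁ * g) := by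
          rw [hkg']; simp only [Matrix.mul_assoc, Matrix.mul_one]
  unfold nn nn2
  rw [hmain, Matrix.trace_mul_comm, Matrix.mul_assoc _ g k, hgk, Matrix.mul_one]

/-- Preimages of open sets under inverse charts. -/
theorem UP_open {X : Type} [TopologicalSpace X] (e : OpenPartialHomeomorph X ℂ) (U : Set X)
    (hU : IsOpen U) : IsOpen (e.target ∩ e.symm ⁻¹' U) := by
  simpa using e.symm.isOpen_inter_preimage hU

/-- The operator `lap` is local. -/
theorem UP_lap_congr {u v : ℂ → ℝ} {z : ℂ} (h : u =ᶠ[𝓝 z] v) : lap u z = lap v z := by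
  unfold lap
  have h1 : (fun t : ℝ => u (z + t)) =ᶠ[𝓝 0] fun t : ℝ => v (z + t) := by
    have hc : Tendsto (fun t : ℝ => z + (t : ℂ)) (𝓝 0) (𝓝 z) := by
      have : Continuous (fun t : ℝ => z + (t : ℂ)) := by fun_prop
      have h0 := this.tendsto 0
      simpa using h0
    exact hc.eventually h
  have h2 : (fun t : ℝ => u (z + t * I)) =ᶠ[𝓝 0] fun t : ℝ => v (z + t * I) := by
    have hc : Tendsto (fun t : ℝ => z + (t : ℂ) * I) (𝓝 0) (𝓝 z) := by
      have : Continuous (fun t : ℝ => z + (t : ℂ) * I) := by fun_prop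
      have h0 := this.tendsto 0
      simpa using h0
    exact hc.eventually h
  rw [h1.iteratedDeriv_eq 2, h2.iteratedDeriv_eq 2]

/-- `lap` of a constant. -/
theorem UP_lap_const (c : ℝ) (z : ℂ) : lap (fun _ => c) z = 0 := by
  unfold lap
  simp [iteratedDeriv_const]

theorem UP (hWI : WI_stmt) (hSX : SX_stmt) (hMN : MN_stmt) : UP_stmt := by
  intro X _ _ hT n B hB H hH P hPh hPg hPA
  obtain ⟨hman, hcomp, -, hconn⟩ := hT
  obtain ⟨hop, hcov, -, hne⟩ := hB.cov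
  -- positivity at all points
  have hpos : ∀ i, ∀ x ∈ B.C.U i, (H i x).PosDef := by
    intro i x hx
    have hl := (hH.loc i (chartAt ℂ x) (chart_mem_atlas ℂ x)).pos (chartAt ℂ x x)
      ⟨mem_chart_target ℂ x, by
        show (chartAt ℂ x).symm (chartAt ℂ x x) ∈ B.C.U i
        rwa [(chartAt ℂ x).left_inv (mem_chart_source ℂ x)]⟩
    simpa [(chartAt ℂ x).left_inv (mem_chart_source ℂ x)] using hl
  -- the norm does not depend on the index
  have hind : ∀ i j x, x ∈ B.C.U i → x ∈ B.C.U j → nn (H j x) (P j x) = nn (H i x) (P i x) := by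
    intro i j x hi hj
    refine UP_trace (B.g i j x) (B.g j i x) (H i x) (H j x) (P i x) (P j x) ?_ ?_ ?_ ?_
    · rw [hB.g_mul i j i x ⟨⟨hi, hj⟩, hi⟩, hB.g_self i x hi]
    · exact hH.glue i j x ⟨hi, hj⟩
    · exact hPg i j x ⟨hi, hj⟩
    · exact (Matrix.isUnit_iff_isUnit_det _).mp (hpos i x hi).isUnit
  choose c hc using hcov
  obtain ⟨N, hN⟩ : ∃ N : X → ℝ, ∀ x, N x = nn (H (c x) x) (P (c x) x) := ⟨_, fun _ => rfl⟩
  have hNi : ∀ i x, x ∈ B.C.U i → N x = nn (H i x) (P i x) := by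
    intro i x hx
    rw [hN x]
    exact hind i (c x) x hx (hc x)
  -- the local statement
  have hloc : ∀ i, ∀ e ∈ atlas ℂ X, ContDiffOn ℝ 2 (fun z => nn (H i (e.symm z)) (P i (e.symm z)))
      (e.target ∩ e.symm ⁻¹' B.C.U i) ∧ ∀ z ∈ e.target ∩ e.symm ⁻¹' B.C.U i,
      ∃ a b : ℝ, 0 ≤ a ∧ 0 ≤ b ∧
      b = nn (H i (e.symm z)) (P i (e.symm z) * adj (H i (e.symm z)) (B.A i (e.symm z)) -
        adj (H i (e.symm z)) (B.A i (e.symm z)) * P i (e.symm z)) ∧
      lap (fun w => nn (H i (e.symm w)) (P i (e.symm w))) z = a + ‖B.C.η i e (e.symm z)‖ ^ 2 * b := by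
    intro i e he
    have hW := hWI n n (e.target ∩ e.symm ⁻¹' B.C.U i) (fun z => ‖B.C.η i e (e.symm z)‖ ^ 2)
      (fun z => B.A i (e.symm z)) (fun z => H i (e.symm z))
      (fun z => B.A i (e.symm z)) (fun z => H i (e.symm z)) (fun z => P i (e.symm z))
      (UP_open e _ (hop i)) (fun a b => hB.A_holo i a b e he) (fun a b => hB.A_holo i a b e he)
      (fun a b => hPh i a b e he) (hH.loc i e he) (hH.loc i e he)
      (fun z hz => hPA i _ hz.2)
    refine ⟨hW.1, fun z hz => ?_⟩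
    obtain ⟨h1, h2, h3, -⟩ := hW.2 z hz
    exact ⟨_, _, h1, h2, rfl, h3⟩
  have hloceq : ∀ i, ∀ e : OpenPartialHomeomorph X ℂ, ∀ z ∈ e.target ∩ e.symm ⁻¹' B.C.U i,
      (fun z => N (e.symm z)) =ᶠ[𝓝 z] fun z => nn (H i (e.symm z)) (P i (e.symm z)) := by
    intro i e z hz
    filter_upwards [(UP_open e _ (hop i)).mem_nhds hz] with w hw
    exact hNi i _ hw.2
  have hconst : ∀ x y, N x = N y := by
    refine hSX X hcomp hconn N ?_
    intro e he
    constructor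
    · intro z hz
      have hz' : z ∈ e.target ∩ e.symm ⁻¹' B.C.U (c (e.symm z)) := ⟨hz, hc _⟩
      have h1 := ((hloc (c (e.symm z)) e he).1 z hz').contDiffAt
        ((UP_open e _ (hop _)).mem_nhds hz')
      exact (h1.congr_of_eventuallyEq (hloceq _ e z hz')).contDiffWithinAt
    · intro z hz
      have hz' : z ∈ e.target ∩ e.symm ⁻¹' B.C.U (c (e.symm z)) := ⟨hz, hc _⟩
      obtain ⟨a, b, ha, hb, -, hl⟩ := (hloc (c (e.symm z)) e he).2 z hz'
      rw [UP_lap_congr (hloceq _ e z hz'), hl]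
      positivity
  refine ⟨fun i j x hx y hy => ?_, fun i x hx => ?_⟩
  · rw [← hNi i x hx, ← hNi j y hy]
    exact hconst x y
  · have hz' : chartAt ℂ x x ∈ (chartAt ℂ x).target ∩ (chartAt ℂ x).symm ⁻¹' B.C.U i :=
      ⟨mem_chart_target ℂ x, by
        show (chartAt ℂ x).symm (chartAt ℂ x x) ∈ B.C.U i
        rwa [(chartAt ℂ x).left_inv (mem_chart_source ℂ x)]⟩
    obtain ⟨a, b, ha, hb, hbe, hl⟩ := (hloc i (chartAt ℂ x) (chart_mem_atlas ℂ x)).2 _ hz'
    have hNc : (fun z => N ((chartAt ℂ x).symm z)) = fun _ => N x := funext fun z => hconst _ _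
    have h0 : lap (fun z => N ((chartAt ℂ x).symm z)) (chartAt ℂ x x) = 0 := by
      rw [hNc]; exact UP_lap_const _ _
    rw [UP_lap_congr (hloceq i _ _ hz'), hl] at h0
    rw [(chartAt ℂ x).left_inv (mem_chart_source ℂ x)] at hbe h0
    have hη : 0 < ‖B.C.η i (chartAt ℂ x) x‖ ^ 2 := by
      have := norm_pos_iff.mpr (hne i x hx)
      positivity
    have hmul : 0 ≤ ‖B.C.η i (chartAt ℂ x) x‖ ^ 2 * b := by positivity
    have hb0 : b = 0 := by
      have h4 : ‖B.C.η i (chartAt ℂ x) x‖ ^ 2 * b = 0 := by linarith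
      rcases mul_eq_zero.mp h4 with h5 | h5
      · exact absurd h5 hη.ne'
      · exact h5
    have h6 := (hMN n (H i x) (hpos i x hx)).2.1 _ (hbe ▸ hb0)
    exact sub_eq_zero.mp h6

end

end Pool.Agent.DL
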